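import Mathlib

open Metric Set Filter Topology

namespace Pool.Agent.Results.MP_2fe121_gt.OpenProjection

noncomputable section

open Classical in
/-- The map `(a, z) ↦ z + 1/(2a)`, with value `∞` at `a = 0`. -/
def fmap (p : ℂ × ℂ) : OnePoint ℂ :=
  if p.1 = 0 then OnePoint.infty else ((p.2 + (2 * p.1)⁻¹ : ℂ) : OnePoint ℂ)

/-- The partial inverse `c ↦ 1/(2(c-z))`, with value `0` at `c = ∞`. -/
def gmap (z : ℂ) (c : OnePoint ℂ) : ℂ :=
  c.elim 0 (fun c' => (2 * (c' - z))⁻¹)

lemma fmap_zero (z : ℂ) : fmap (0, z) = OnePoint.infty := by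
  simp [fmap]

lemma fmap_of_ne {a : ℂ} (ha : a ≠ 0) (z : ℂ) :
    fmap (a, z) = ((z + (2 * a)⁻¹ : ℂ) : OnePoint ℂ) := by
  simp [fmap, ha]

lemma gmap_infty (z : ℂ) : gmap z OnePoint.infty = 0 := rfl

lemma gmap_coe (z c : ℂ) : gmap z (c : OnePoint ℂ) = (2 * (c - z))⁻¹ := rfl

lemma fmap_gmap (z : ℂ) {c : OnePoint ℂ} (hc : c ≠ (z : OnePoint ℂ)) :
    fmap (gmap z c, z) = c := by
  induction c using OnePoint.rec with
  | infty => rw [gmap_infty, fmap_zero]
  | coe c =>
    have hcz : c - z ≠ 0 := by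
      intro h
      exact hc (by rw [sub_eq_zero.mp h])
    rw [gmap_coe, fmap_of_ne (inv_ne_zero (mul_ne_zero two_ne_zero hcz))]
    congr 1
    field_simp
    ring

lemma gmap_fmap (a z : ℂ) : gmap z (fmap (a, z)) = a := by
  by_cases ha : a = 0
  · subst ha
    rw [fmap_zero, gmap_infty]
  · rw [fmap_of_ne ha, gmap_coe]
    field_simp
    ring

lemma continuousAt_gmap (z : ℂ) {c : OnePoint ℂ} (hc : c ≠ (z : OnePoint ℂ)) :
    ContinuousAt (gmap z) c := by
  induction c using OnePoint.rec with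
  | infty =>
    rw [OnePoint.continuousAt_infty', gmap_infty, coclosedCompact_eq_cocompact,
      ← Metric.cobounded_eq_cocompact]
    have h1 : Tendsto (fun c : ℂ => 2 * (c - z)) (Bornology.cobounded ℂ)
        (Bornology.cobounded ℂ) := by
      rw [← tendsto_norm_atTop_iff_cobounded]
      have h2 : Tendsto (fun c : ℂ => 2 * (‖c‖ - ‖z‖)) (Bornology.cobounded ℂ) atTop := by
        refine Tendsto.const_mul_atTop two_pos ?_
        exact tendsto_atTop_add_const_right _ _ tendsto_norm_cobounded_atTop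
      refine tendsto_atTop_mono (fun c => ?_) h2
      rw [norm_mul]
      have := norm_sub_norm_le c z
      simp
      linarith
    exact (tendsto_inv₀_cobounded.comp h1)
  | coe c =>
    rw [OnePoint.continuousAt_coe]
    have hcz : c - z ≠ 0 := by
      intro h
      exact hc (by rw [sub_eq_zero.mp h])
    have : ContinuousAt (fun c' : ℂ => (2 * (c' - z))⁻¹) c := by
      refine ContinuousAt.inv₀ ?_ (mul_ne_zero two_ne_zero hcz)
      fun_prop
    exact this

lemma continuous_fmap : Continuous fmap := by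
  rw [continuous_iff_continuousAt]
  rintro ⟨a, z⟩
  by_cases ha : a = 0
  · subst ha
    rw [ContinuousAt, fmap_zero]
    rw [OnePoint.hasBasis_nhds_infty.tendsto_right_iff]
    rintro s ⟨hsc, hs⟩
    obtain ⟨R, hR⟩ := hs.isBounded.exists_norm_le
    -- for small `a` and bounded `z`, the value is outside of `s`
    have h1 : ∀ᶠ p : ℂ × ℂ in 𝓝 (0, z), ‖p.1‖ * (2 * (|R| + ‖z‖ + 2)) < 1 := by
      have : ContinuousAt (fun p : ℂ × ℂ => ‖p.1‖ * (2 * (|R| + ‖z‖ + 2))) (0, z) := by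
        fun_prop
      refine this.eventually_lt continuousAt_const ?_
      simp
    have h2 : ∀ᶠ p : ℂ × ℂ in 𝓝 (0, z), ‖p.2‖ < ‖z‖ + 1 := by
      have : ContinuousAt (fun p : ℂ × ℂ => ‖p.2‖) (0, z) := by
        fun_prop
      refine this.eventually_lt continuousAt_const ?_
      simp
    filter_upwards [h1, h2] with p hp1 hp2
    obtain ⟨b, w⟩ := p
    by_cases hb : b = 0
    · subst hb
      rw [fmap_zero]
      right
      rfl
    · left
      rw [fmap_of_ne hb]
      refine ⟨_, ?_, rfl⟩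
      intro hmem
      have h3 := hR _ hmem
      simp only at hp1 hp2
      have hbpos : 0 < ‖b‖ := norm_pos_iff.mpr hb
      have h4 : ‖(2 * b)⁻¹‖ ≤ ‖w + (2 * b)⁻¹‖ + ‖w‖ := by
        have := norm_sub_le (w + (2 * b)⁻¹) w
        simpa using this
      have h5 : ‖(2 * b)⁻¹‖ = (2 * ‖b‖)⁻¹ := by
        rw [norm_inv, norm_mul]
        simp
      have h6 : (2 * ‖b‖)⁻¹ > |R| + ‖z‖ + 2 := by
        rw [gt_iff_lt, lt_inv_comm₀ (by positivity) (by positivity),
          ← one_div, lt_div_iff₀ (by positivity)]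
        linarith
      have h7 := le_abs_self R
      linarith
  · have hne : ∀ᶠ p : ℂ × ℂ in 𝓝 (a, z), p.1 ≠ 0 := by
      have : ContinuousAt (fun p : ℂ × ℂ => p.1) (a, z) := by fun_prop
      exact this.eventually_ne ha
    have h1 : ContinuousAt (fun p : ℂ × ℂ => ((p.2 + (2 * p.1)⁻¹ : ℂ) : OnePoint ℂ)) (a, z) := by
      refine OnePoint.continuous_coe.continuousAt.comp ?_
      refine ContinuousAt.add (by fun_prop) ?_
      refine ContinuousAt.inv₀ (by fun_prop) ?_
      simpa using ha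
    refine h1.congr ?_
    filter_upwards [hne] with p hp
    exact (fmap_of_ne hp p.2).symm

/-- Key perturbation: a point `z₀` of the closed unit disc outside the open disc of radius `1/2`
about `c₀` is a limit of points of the closed unit disc outside the closed disc. -/
lemma exists_near {z₀ c₀ : ℂ} (hz : ‖z₀‖ ≤ 1) (hc : 1 / 2 ≤ ‖z₀ - c₀‖) {ε : ℝ} (hε : 0 < ε) :
    ∃ z : ℂ, ‖z‖ ≤ 1 ∧ 1 / 2 < ‖z - c₀‖ ∧ ‖z - z₀‖ < ε := by
  rcases hc.lt_or_eq with hlt | heq
  · exact ⟨z₀, hz, hlt, by simpa using hε⟩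
  rcases hz.lt_or_eq with hz1 | hz1
  · -- move radially away from `c₀`
    set t : ℝ := min (1 - ‖z₀‖) (ε) with ht
    have htpos : 0 < t := lt_min (by linarith) hε
    refine ⟨z₀ + (t : ℂ) * (z₀ - c₀), ?_, ?_, ?_⟩
    · calc ‖z₀ + (t : ℂ) * (z₀ - c₀)‖ ≤ ‖z₀‖ + ‖(t : ℂ) * (z₀ - c₀)‖ := norm_add_le _ _
        _ = ‖z₀‖ + t * (1 / 2) := by
            rw [norm_mul, Complex.norm_real, Real.norm_of_nonneg htpos.le, ← heq]
        _ ≤ 1 := by
            have := min_le_left (1 - ‖z₀‖) ε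
            linarith
    · have : z₀ + (t : ℂ) * (z₀ - c₀) - c₀ = ((1 + t : ℝ) : ℂ) * (z₀ - c₀) := by
        push_cast
        ring
      rw [this, norm_mul, Complex.norm_real, Real.norm_of_nonneg (by linarith), ← heq]
      linarith
    · have : z₀ + (t : ℂ) * (z₀ - c₀) - z₀ = (t : ℂ) * (z₀ - c₀) := by ring
      rw [this, norm_mul, Complex.norm_real, Real.norm_of_nonneg htpos.le, ← heq]
      have := min_le_right (1 - ‖z₀‖) ε
      linarith
  · -- rotate about the origin
    set q : ℂ := z₀ * (starRingEnd ℂ) c₀ with hq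
    have hnc : Complex.normSq (z₀ - c₀) = 1 / 4 := by
      rw [Complex.normSq_eq_norm_sq, ← heq]
      norm_num
    have hnz : Complex.normSq z₀ = 1 := by
      rw [Complex.normSq_eq_norm_sq, hz1]
      norm_num
    have hqre : 0 < q.re := by
      have h1 := Complex.normSq_sub z₀ c₀
      rw [hnc, hnz, ← hq] at h1
      have h2 := Complex.normSq_nonneg c₀
      linarith
    obtain ⟨s, hs, hsq⟩ : ∃ s : ℝ, (s = 1 ∨ s = -1) ∧ 0 ≤ s * q.im := by
      rcases le_total 0 q.im with h | h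
      · exact ⟨1, Or.inl rfl, by linarith⟩
      · exact ⟨-1, Or.inr rfl, by linarith⟩
    have hev : ∀ᶠ b : ℝ in 𝓝[>] 0, ‖Complex.exp (((s * b : ℝ) : ℂ) * Complex.I) - 1‖ < ε := by
      have hcont : ContinuousAt
          (fun b : ℝ => ‖Complex.exp (((s * b : ℝ) : ℂ) * Complex.I) - 1‖) 0 := by
        fun_prop
      have := hcont.eventually_lt (g := fun _ => ε) continuousAt_const (by simpa using hε)
      exact this.filter_mono nhdsWithin_le_nhds
    have hev2 : ∀ᶠ b : ℝ in 𝓝[>] 0, b ∈ Ioo (0 : ℝ) Real.pi :=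
      Ioo_mem_nhdsGT Real.pi_pos
    obtain ⟨b, hb1, hb2⟩ := (hev.and hev2).exists
    refine ⟨z₀ * Complex.exp (((s * b : ℝ) : ℂ) * Complex.I), ?_, ?_, ?_⟩
    · rw [norm_mul, Complex.norm_exp_ofReal_mul_I, hz1]
      norm_num
    · have hsq4 : (1 / 4 : ℝ) <
          Complex.normSq (z₀ * Complex.exp (((s * b : ℝ) : ℂ) * Complex.I) - c₀) := by
        have h1 := Complex.normSq_sub z₀ c₀
        rw [hnc, hnz, ← hq] at h1
        have h2 : (z₀ * Complex.exp (((s * b : ℝ) : ℂ) * Complex.I)) * (starRingEnd ℂ) c₀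
            = q * Complex.exp (((s * b : ℝ) : ℂ) * Complex.I) := by
          rw [hq]
          ring
        rw [Complex.normSq_sub, h2, Complex.normSq_mul, hnz,
          Complex.normSq_eq_norm_sq (Complex.exp _), Complex.norm_exp_ofReal_mul_I,
          Complex.mul_re, Complex.exp_ofReal_mul_I_re, Complex.exp_ofReal_mul_I_im]
        have hcos : Real.cos (s * b) < 1 := by
          have hc1 : Real.cos (s * b) = Real.cos b := by
            rcases hs with rfl | rfl
            · simp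
            · simp
          rw [hc1]
          have := Real.cos_lt_cos_of_nonneg_of_le_pi le_rfl hb2.2.le hb2.1
          simpa using this
        have hsin : 0 ≤ Real.sin (s * b) * q.im := by
          have hs1 : Real.sin (s * b) = s * Real.sin b := by
            rcases hs with rfl | rfl
            · simp
            · simp
          rw [hs1]
          have := Real.sin_pos_of_pos_of_lt_pi hb2.1 hb2.2
          nlinarith
        nlinarith
      rw [Complex.normSq_eq_norm_sq] at hsq4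
      by_contra hcon
      push Not at hcon
      have h3 := norm_nonneg (z₀ * Complex.exp (((s * b : ℝ) : ℂ) * Complex.I) - c₀)
      nlinarith
    · have : z₀ * Complex.exp (((s * b : ℝ) : ℂ) * Complex.I) - z₀
          = z₀ * (Complex.exp (((s * b : ℝ) : ℂ) * Complex.I) - 1) := by ring
      rw [this, norm_mul, hz1, one_mul]
      exact hb1

/-- The closed unit ball of `ℂ × ℂ` in the sup norm, i.e. the product of two closed discs. -/
abbrev BiDisc : Type := closedBall (0 : ℂ × ℂ) 1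

lemma mem_biDisc {p : ℂ × ℂ} : p ∈ closedBall (0 : ℂ × ℂ) 1 ↔ ‖p.1‖ ≤ 1 ∧ ‖p.2‖ ≤ 1 := by
  rw [mem_closedBall_zero_iff, Prod.norm_def, max_le_iff]

/-- Each point of the bidisc can be approximated by points with the same image and with
first coordinate in the open disc. -/
lemma exists_near' {a₀ z₀ : ℂ} (ha : ‖a₀‖ ≤ 1) (hz : ‖z₀‖ ≤ 1) {U : Set (ℂ × ℂ)}
    (hU : U ∈ 𝓝 (a₀, z₀)) :
    ∃ a z : ℂ, ‖a‖ < 1 ∧ ‖z‖ ≤ 1 ∧ (a, z) ∈ U ∧ fmap (a, z) = fmap (a₀, z₀) := by
  by_cases h0 : a₀ = 0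
  · subst h0
    exact ⟨0, z₀, by simp, hz, mem_of_mem_nhds hU, rfl⟩
  -- `c₀ - z₀ = 1/(2 a₀)`
  have hapos : 0 < ‖a₀‖ := norm_pos_iff.mpr h0
  set c₀ : ℂ := z₀ + (2 * a₀)⁻¹ with hc₀
  have hsub : z₀ - c₀ = -(2 * a₀)⁻¹ := by rw [hc₀]; ring
  have hge : 1 / 2 ≤ ‖z₀ - c₀‖ := by
    rw [hsub, norm_neg, norm_inv, norm_mul]
    have : ‖(2 : ℂ)‖ = 2 := by simp
    rw [this, ← one_div]
    apply one_div_le_one_div_of_le (by positivity)
    linarith
  -- continuity of `z ↦ (1/(2(c₀ - z)), z)` at `z₀`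
  have hne : c₀ - z₀ ≠ 0 := by
    intro h
    have : z₀ - c₀ = 0 := by rw [← neg_sub, h, neg_zero]
    rw [this, norm_zero] at hge
    norm_num at hge
  have hval : (2 * (c₀ - z₀))⁻¹ = a₀ := by
    rw [hc₀]
    field_simp
    ring
  have hcont : ContinuousAt (fun z : ℂ => ((2 * (c₀ - z))⁻¹, z)) z₀ := by
    refine ContinuousAt.prodMk ?_ continuousAt_id
    exact ContinuousAt.inv₀ (by fun_prop) (mul_ne_zero two_ne_zero hne)
  have hpre : (fun z : ℂ => ((2 * (c₀ - z))⁻¹, z)) ⁻¹' U ∈ 𝓝 z₀ := by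
    apply hcont
    change U ∈ 𝓝 ((2 * (c₀ - z₀))⁻¹, z₀)
    rw [hval]
    exact hU
  obtain ⟨ε, hε, hball⟩ := Metric.mem_nhds_iff.mp hpre
  obtain ⟨z, hz1, hz2, hz3⟩ := exists_near hz hge hε
  have hzc : c₀ - z ≠ 0 := by
    intro h
    have : z - c₀ = 0 := by rw [← neg_sub, h, neg_zero]
    rw [this, norm_zero] at hz2
    norm_num at hz2
  refine ⟨(2 * (c₀ - z))⁻¹, z, ?_, hz1, ?_, ?_⟩
  · rw [norm_inv, norm_mul, ← norm_neg (c₀ - z), neg_sub]
    have h2 : ‖(2 : ℂ)‖ = 2 := by simp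
    rw [h2]
    apply inv_lt_one_of_one_lt₀
    linarith
  · apply hball
    rw [mem_ball, dist_eq_norm]
    exact hz3
  · have h1 : fmap (a₀, z₀) = (c₀ : OnePoint ℂ) := fmap_of_ne h0 z₀
    rw [h1]
    have h2 : (c₀ : OnePoint ℂ) ≠ (z : OnePoint ℂ) := by
      rw [Ne, OnePoint.coe_eq_coe]
      intro h
      exact hzc (by rw [h, sub_self])
    have h3 := fmap_gmap z h2
    rwa [gmap_coe] at h3

lemma isOpenMap_fmap : IsOpenMap (fun p : BiDisc => fmap p.1) := by
  rw [isOpenMap_iff_nhds_le]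
  rintro ⟨⟨a₀, z₀⟩, hp⟩
  obtain ⟨ha, hz⟩ := mem_biDisc.mp hp
  simp only at ha hz
  intro V hV
  rw [mem_map] at hV
  -- the preimage of `V` is a neighbourhood of the point in the bidisc
  rw [nhds_subtype_eq_comap, mem_comap] at hV
  obtain ⟨U, hU, hUV⟩ := hV
  obtain ⟨U', hU'U, hU'o, hU'm⟩ := _root_.mem_nhds_iff.mp hU
  obtain ⟨a, z, ha1, hz1, haz, hf⟩ := exists_near' ha hz (hU'o.mem_nhds hU'm)
  change V ∈ 𝓝 (fmap (a₀, z₀))
  rw [← hf]
  have hcz : fmap (a, z) ≠ (z : OnePoint ℂ) := by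
    by_cases h0 : a = 0
    · subst h0
      rw [fmap_zero]
      exact OnePoint.infty_ne_coe z
    · rw [fmap_of_ne h0, Ne, OnePoint.coe_eq_coe]
      simp [h0]
  have hcont := continuousAt_gmap z hcz
  rw [ContinuousAt, gmap_fmap] at hcont
  have hW : {b : ℂ | ‖b‖ < 1 ∧ (b, z) ∈ U'} ∈ 𝓝 a := by
    have ho : IsOpen {b : ℂ | ‖b‖ < 1 ∧ (b, z) ∈ U'} := by
      apply IsOpen.inter
      · exact isOpen_lt continuous_norm continuous_const
      · exact hU'o.preimage (by fun_prop : Continuous fun b : ℂ => (b, z))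
    exact ho.mem_nhds ⟨ha1, haz⟩
  have h1 := hcont hW
  rw [mem_map] at h1
  have h2 : {c : OnePoint ℂ | c ≠ (z : OnePoint ℂ)} ∈ 𝓝 (fmap (a, z)) :=
    isOpen_ne.mem_nhds hcz
  filter_upwards [h1, h2] with c hc1 hc2
  have hmem : ((gmap z c, z) : ℂ × ℂ) ∈ closedBall (0 : ℂ × ℂ) 1 :=
    mem_biDisc.mpr ⟨hc1.1.le, hz1⟩
  have h3 : (⟨(gmap z c, z), hmem⟩ : BiDisc) ∈ (fun p : BiDisc => fmap p.1) ⁻¹' V :=
    hUV (hU'U hc1.2)
  have h4 : fmap (gmap z c, z) ∈ V := h3
  rwa [fmap_gmap z hc2] at h4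

/-- The embedding of the bidisc in `OnePoint ℂ × ℂ`. -/
def emap (p : BiDisc) : OnePoint ℂ × ℂ := (fmap p.1, p.1.2)

lemma continuous_emap : Continuous emap :=
  (continuous_fmap.comp continuous_subtype_val).prodMk
    (continuous_snd.comp continuous_subtype_val)

lemma injective_emap : Function.Injective emap := by
  rintro ⟨⟨a, z⟩, hp⟩ ⟨⟨b, w⟩, hq⟩ h
  simp only [emap, Prod.mk.injEq] at h
  obtain ⟨h1, rfl⟩ := h
  have : a = b := by
    rw [← gmap_fmap a z, h1, gmap_fmap]
  subst this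
  rfl

/-- The closed unit ball of `ℝ⁴` is homeomorphic to the bidisc. -/
lemma ballHomeo :
    Nonempty (closedBall (0 : EuclideanSpace ℝ (Fin 4)) 1 ≃ₜ BiDisc) := by
  have hfr : Module.finrank ℝ (EuclideanSpace ℝ (Fin 4)) = Module.finrank ℝ (ℂ × ℂ) := by
    simp [Complex.finrank_real_complex]
  obtain ⟨L⟩ := FiniteDimensional.nonempty_continuousLinearEquiv_of_finrank_eq hfr
  set s : Set (ℂ × ℂ) := L '' closedBall (0 : EuclideanSpace ℝ (Fin 4)) 1 with hs
  have hclosed : IsClosed s := by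
    have : IsCompact s := (isCompact_closedBall _ _).image L.continuous
    exact this.isClosed
  have hconv : Convex ℝ s := (convex_closedBall _ _).linear_image L.toLinearEquiv.toLinearMap
  have hint : (interior s).Nonempty := by
    have h1 : L '' ball (0 : EuclideanSpace ℝ (Fin 4)) 1 ⊆ interior s := by
      apply interior_maximal (image_mono ball_subset_closedBall)
      exact L.toHomeomorph.isOpenMap _ isOpen_ball
    exact ⟨L 0, h1 ⟨0, by simp, rfl⟩⟩
  have hbdd : Bornology.IsBounded s :=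
    ((isCompact_closedBall _ _).image L.continuous).isBounded
  obtain ⟨h, -, hcl, -⟩ :=
    exists_homeomorph_image_interior_closure_frontier_eq_unitBall hconv hint hbdd
  rw [hclosed.closure_eq] at hcl
  let g : EuclideanSpace ℝ (Fin 4) ≃ₜ ℂ × ℂ := L.toHomeomorph.trans h
  have hg : g '' closedBall (0 : EuclideanSpace ℝ (Fin 4)) 1 = closedBall (0 : ℂ × ℂ) 1 := by
    rw [← hcl, hs, image_image]
    rfl
  exact ⟨(g.image _).trans (Homeomorph.setCongr hg)⟩

/-- There is a topological embedding `e` of the closed unit ball of `ℝ⁴` into `S² × ℝ²` whose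
composition with the projection to `S²` is an open map. -/
theorem result :
    ∃ e : closedBall (0 : EuclideanSpace ℝ (Fin 4)) 1 →
        sphere (0 : EuclideanSpace ℝ (Fin 3)) 1 × EuclideanSpace ℝ (Fin 2),
      IsEmbedding e ∧ IsOpenMap (fun x => (e x).1) := by
  obtain ⟨h₁⟩ := ballHomeo
  let h₂ : OnePoint ℂ ≃ₜ sphere (0 : EuclideanSpace ℝ (Fin 3)) 1 :=
    onePointEquivSphereOfFinrankEq (by simp [Complex.finrank_real_complex])
  have hfr : Module.finrank ℝ ℂ = Module.finrank ℝ (EuclideanSpace ℝ (Fin 2)) := by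
    simp [Complex.finrank_real_complex]
  obtain ⟨h₃⟩ := FiniteDimensional.nonempty_continuousLinearEquiv_of_finrank_eq hfr
  refine ⟨fun x => (h₂ (emap (h₁ x)).1, h₃ (emap (h₁ x)).2), ?_, ?_⟩
  · have h4 : IsEmbedding emap :=
      (continuous_emap.isClosedEmbedding injective_emap).isEmbedding
    have h5 : IsEmbedding (fun x => emap (h₁ x)) := h4.comp h₁.isEmbedding
    have h6 : IsEmbedding (h₂.prodCongr h₃.toHomeomorph) := (h₂.prodCongr h₃.toHomeomorph).isEmbedding
    exact h6.comp h5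
  · exact h₂.isOpenMap.comp (isOpenMap_fmap.comp h₁.isOpenMap)

end

end Pool.Agent.Results.MP_2fe121_gt.OpenProjection
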